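import Pool.Agent.W627.LT.Stm

set_option autoImplicit false

/-! # S_X: elements of a real quadratic order with prescribed argument -/

namespace Pool.Agent.W904.LTX

open Filter Topology NumberField Pool.Agent.H38R2.CG

theorem real_part (s T l : ℝ) (hs : 0 < s) (hl : 0 < l) : ∃ q : ℚ, -1 < (q : ℝ) * s ∧ (q : ℝ) * s < 1 ∧
    |l * Real.log ((1 + (q : ℝ) * s) / (1 - (q : ℝ) * s)) + T| < 1 / 2 := by
  set E : ℝ := Real.exp (-T / l) with hE
  have hE0 : 0 < E := Real.exp_pos _
  set r0 : ℝ := (E - 1) / (E + 1) / s with hr0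
  have h1 : r0 * s = (E - 1) / (E + 1) := by
    rw [hr0]; field_simp
  have hlo : -1 < r0 * s := by
    rw [h1, lt_div_iff₀ (by linarith)]; linarith
  have hhi : r0 * s < 1 := by
    rw [h1, div_lt_one (by linarith)]; linarith
  have hq : (1 + r0 * s) / (1 - r0 * s) = E := by
    rw [h1]
    have : E + 1 ≠ 0 := by linarith
    field_simp
    ring
  have hcont : ContinuousAt (fun r : ℝ => l * Real.log ((1 + r * s) / (1 - r * s)) + T) r0 := by
    have hd : ContinuousAt (fun r : ℝ => (1 + r * s) / (1 - r * s)) r0 := by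
      apply ContinuousAt.div
      · fun_prop
      · fun_prop
      · linarith
    have hl2 : ContinuousAt (fun r : ℝ => Real.log ((1 + r * s) / (1 - r * s))) r0 := by
      apply ContinuousAt.log hd
      rw [hq]; exact hE0.ne'
    exact (continuousAt_const.mul hl2).add continuousAt_const
  have hf0 : l * Real.log ((1 + r0 * s) / (1 - r0 * s)) + T = 0 := by
    rw [hq, hE, Real.log_exp]
    field_simp
    ring
  have e1 : ∀ᶠ r in 𝓝 r0, |l * Real.log ((1 + r * s) / (1 - r * s)) + T| < 1 / 2 := by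
    have := hcont.abs
    apply this.eventually_lt_const
    simp only [hf0]; norm_num
  have hc2 : ContinuousAt (fun r : ℝ => r * s) r0 := by fun_prop
  have e2 : ∀ᶠ r in 𝓝 r0, -1 < r * s := hc2.eventually_const_lt hlo
  have e3 : ∀ᶠ r in 𝓝 r0, r * s < 1 := hc2.eventually_lt_const hhi
  have hall : {r : ℝ | -1 < r * s ∧ r * s < 1 ∧
      |l * Real.log ((1 + r * s) / (1 - r * s)) + T| < 1 / 2} ∈ 𝓝 r0 := by
    filter_upwards [e1, e2, e3] with r a b c
    exact ⟨b, c, a⟩
  obtain ⟨q, hq⟩ := Rat.denseRange_cast (𝕜 := ℝ) |>.mem_nhds hall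
  exact ⟨q, hq⟩

theorem ltx : Pool.Agent.W627.LT.S_X := by
  intro K _ _ D e hD l hl g hg
  have hs : 0 < √(D : ℝ) := by
    apply Real.sqrt_pos.mpr
    have : 0 < D := by omega
    exact_mod_cast this
  have hl' : (0 : ℝ) < l := by exact_mod_cast hl
  obtain ⟨q, h1, h2, h3⟩ := real_part (√(D : ℝ)) (Real.log (abs (e.σ g / e.τ g))) l hs hl'
  obtain ⟨x, hx1, hx2⟩ := e.int2 (2 * (q.den : ℤ)) (2 * q.num) (by
    rw [show (2 * (q.den : ℤ) - D * (2 * q.num)) = 2 * ((q.den : ℤ) - D * q.num) by ring]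
    exact dvd_mul_right _ _)
  have hden : (0 : ℝ) < (q.den : ℝ) := by exact_mod_cast q.den_pos
  have hnum : (q.num : ℝ) = (q : ℝ) * (q.den : ℝ) := by
    have := Rat.mul_den_eq_num q
    have h' : ((q * (q.den : ℚ) : ℚ) : ℝ) = ((q.num : ℚ) : ℝ) := by exact_mod_cast this
    push_cast at h'
    exact h'.symm
  have hσ : e.σ (x : K) = (q.den : ℝ) * (1 + (q : ℝ) * √(D : ℝ)) := by
    rw [hx1]; push_cast; rw [hnum]; ring
  have hτ : e.τ (x : K) = (q.den : ℝ) * (1 - (q : ℝ) * √(D : ℝ)) := by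
    rw [hx2]; push_cast; rw [hnum]; ring
  refine ⟨x, ?_, ?_, ?_⟩
  · rw [hσ]; apply mul_pos hden; linarith
  · rw [hτ]; apply mul_pos hden; linarith
  · rw [hσ, hτ, mul_div_mul_left _ _ hden.ne']
    exact h3.le

end Pool.Agent.W904.LTX
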